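import Pool.Agent.H3.S2.TgQ
import Pool.Agent.H17.SFG.CRH

/-!
# MP_70ba79_ag, THEOREM S, part 2, row CQB: homogeneous certificate with a factor `Q`
-/

set_option autoImplicit false

namespace Pool.Agent.H19.S2

open MvPolynomial SC Pool.Agent.H27.LV
open Pool.Agent.H92.SF Pool.Agent.H3.SF Pool.Agent.H17.SD Pool.Agent.H3.S2 Pool.Agent.H17.SFG

theorem pf_CQB (hCQA : T_CQA) : T_CQB := by
  intro k F σ _ _ _ _ _ _ X u dd m G htr hrel hind hul hXi hdd hcm hXe hm hG dq Q hQ hnd
  have hF : CharZero F := charZero_of_injective_algebraMap (algebraMap k F).injective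
  obtain ⟨c, hc⟩ := hCQA k F σ X u dd m G htr hrel hind hul hXi hdd hXe hm hG dq Q hQ hnd
  refine ⟨c, fun i => ?_⟩
  by_cases hQ0 : aeval X Q = 0
  · refine ⟨fun _ => 0, fun l => ⟨Subalgebra.zero_mem _, (Bb k u).zero_mem, ?_⟩, ?_⟩
    · unfold Hm
      rw [map_zero, mul_zero]
    · rw [hQ0, zero_mul]
      symm
      exact Finset.sum_eq_zero fun l _ => zero_mul _
  obtain ⟨e, he, hce⟩ := hc i
  have hp : ∀ l, ∃ p : MvPolynomial σ k, aeval X p = e l := by
    intro l
    have h2 := he l
    change e l ∈ Algebra.adjoin k (Set.range X) at h2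
    rw [Algebra.adjoin_range_eq_range_aeval] at h2
    exact h2
  choose p hp using hp
  set E := eu u dd with hE
  set g : F := aeval X G with hg
  have hgm : Hm k E m g := hm_aeval X E hXe m G hG
  have hEdd : ∀ l, Hm k E ((m : ℤ) - 1) (dd l g) := by
    intro l
    unfold Hm at *
    have h2 := congrArg (dd l) hgm
    rw [hE, eu_apply, map_sum] at h2
    rw [hE, eu_apply]
    have h3 : ∀ j, dd l (u j * dd j g) = u j * dd j (dd l g) + (if l = j then dd j g else 0) := by
      intro j
      rw [Derivation.leibniz, smul_eq_mul, smul_eq_mul, hdd, hcm l j]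
      split_ifs <;> ring
    rw [Finset.sum_congr rfl fun j _ => h3 j, Finset.sum_add_distrib, Finset.sum_ite_eq,
      if_pos (Finset.mem_univ _)] at h2
    have h4 : dd l (((m : ℤ) : F) * g) = (m : F) * dd l g := by
      rw [show ((m : ℤ) : F) = algebraMap k F (m : k) by simp, ← Algebra.smul_def,
        Derivation.map_smul, Algebra.smul_def]
      simp
    rw [h4] at h2
    push_cast
    linear_combination h2
  have hEmul : ∀ (a b : F) (s t : ℤ), Hm k E s a → Hm k E t b → Hm k E (s + t) (a * b) := by
    intro a b s t ha hb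
    unfold Hm at *
    rw [Derivation.leibniz, smul_eq_mul, smul_eq_mul, ha, hb]
    push_cast
    ring
  have hpc : ∀ l d, Hm k E (d : ℕ) (aeval X (homogeneousComponent d (p l))) := fun l d =>
    hm_aeval X E hXe d _ (homogeneousComponent_isHomogeneous d (p l))
  have huc : Hm k E c (u i ^ c) := by
    have h2 : ∀ n : ℕ, Hm k E n (u i ^ n) := by
      intro n
      induction n with
      | zero => unfold Hm; simp
      | succ n ih =>
        have h3 : Hm k E 1 (u i) := by
          unfold Hm
          rw [hE, eu_u u dd hdd]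
          simp
        have h4 := hEmul _ _ _ _ ih h3
        rw [pow_succ]
        have h5 : ((n + 1 : ℕ) : ℤ) = (n : ℤ) + 1 := by push_cast; ring
        rw [h5]
        exact h4
    exact h2 c
  have hui0 : aeval X Q * u i ^ c ≠ 0 := mul_ne_zero hQ0 (pow_ne_zero _ (hind.ne_zero i))
  obtain ⟨cc, hcc⟩ : ∃ cc : ℕ, cc = dq + c := ⟨_, rfl⟩
  obtain ⟨R, hR⟩ : ∃ R : F, R = aeval X Q * u i ^ c := ⟨_, rfl⟩
  have hui : R ≠ 0 := by rw [hR]; exact hui0
  have huR : Hm k E cc R := by
    have h2 := hEmul _ _ _ _ (hm_aeval X E hXe dq Q hQ) huc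
    rw [hcc, hR]
    rw [show ((dq + c : ℕ) : ℤ) = (dq : ℤ) + c by push_cast; rfl]
    exact h2
  rw [← hR] at hce
  -- a common bound for the degrees
  set M : ℕ := Finset.univ.sup (fun l => (p l).totalDegree) + 1 + cc with hM
  have hpd : ∀ l, p l = ∑ d ∈ Finset.range M, homogeneousComponent d (p l) := by
    intro l
    conv_lhs => rw [← sum_homogeneousComponent (p l)]
    refine Finset.sum_subset ?_ ?_
    · intro d hd
      rw [Finset.mem_range] at hd ⊢
      have h2 : (p l).totalDegree ≤ Finset.univ.sup (fun l => (p l).totalDegree) :=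
        Finset.le_sup (f := fun l => (p l).totalDegree) (Finset.mem_univ l)
      omega
    · intro d _ hd
      rw [Finset.mem_range] at hd
      exact homogeneousComponent_eq_zero _ _ (by omega)
  set b : ℕ → F := fun d => ∑ l, aeval X (homogeneousComponent d (p l)) * dd l g with hb
  have hbh : ∀ d : ℕ, Hm k E ((d : ℤ) + (m - 1)) (b d) := by
    intro d
    unfold Hm
    simp only [hb]
    rw [map_sum, Finset.mul_sum]
    refine Finset.sum_congr rfl fun l _ => ?_
    exact hEmul _ _ _ _ (hpc l d) (hEdd l)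
  have hsum : R = ∑ d ∈ Finset.range M, b d := by
    rw [hce]
    simp only [hb]
    rw [Finset.sum_comm]
    refine Finset.sum_congr rfl fun l _ => ?_
    rw [← hp l, ← Finset.sum_mul]
    congr 1
    conv_lhs => rw [hpd l]
    rw [map_sum]
  -- eigenvalues
  set a : ℤ → F := fun t => (if 0 ≤ t - (m - 1) then b (t - (m - 1)).toNat else 0) -
    (if t = cc then R else 0) with ha
  set T : Finset ℤ := insert (cc : ℤ) ((Finset.range M).image fun d : ℕ => (d : ℤ) + (m - 1))
    with hT
  have hinj : Set.InjOn (fun d : ℕ => (d : ℤ) + (m - 1)) (Finset.range M : Set ℕ) := by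
    intro x _ y _ hxy
    have : (x : ℤ) + (m - 1) = y + (m - 1) := hxy
    omega
  have hbig : ∀ d, M ≤ d → b d = 0 := by
    intro d hd
    simp only [hb]
    refine Finset.sum_eq_zero fun l _ => ?_
    have h2 : (p l).totalDegree ≤ Finset.univ.sup (fun l => (p l).totalDegree) :=
      Finset.le_sup (f := fun l => (p l).totalDegree) (Finset.mem_univ l)
    rw [homogeneousComponent_eq_zero _ _ (by omega), map_zero, zero_mul]
  have hae : ∀ t ∈ T, Hm k E t (a t) := by
    intro t _
    have h2 : Hm k E t (if 0 ≤ t - (m - 1) then b (t - (m - 1)).toNat else 0) := by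
      split_ifs with h
      · have h3 := hbh (t - (m - 1)).toNat
        have h4 : (((t - (m - 1)).toNat : ℤ) + (m - 1)) = t := by
          rw [Int.toNat_of_nonneg h]; ring
        rw [h4] at h3
        exact h3
      · unfold Hm; simp
    have h3 : Hm k E t (if t = cc then R else 0) := by
      split_ifs with h
      · rw [h]; exact huR
      · unfold Hm; simp
    unfold Hm at *
    simp only [ha]
    rw [map_sub, h2, h3, mul_sub]
  have has : ∑ t ∈ T, a t = 0 := by
    simp only [ha]
    rw [Finset.sum_sub_distrib]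
    have h2 : ∑ t ∈ T, (if t = (cc : ℤ) then R else 0) = R := by
      rw [Finset.sum_ite_eq', if_pos (Finset.mem_insert_self _ _)]
    have h3 : ∑ t ∈ T, (if 0 ≤ t - ((m : ℤ) - 1) then b (t - (m - 1)).toNat else 0) = R := by
      rw [hsum]
      have h4 : ∑ t ∈ (Finset.range M).image (fun d : ℕ => (d : ℤ) + (m - 1)),
          (if 0 ≤ t - ((m : ℤ) - 1) then b (t - (m - 1)).toNat else 0) =
          ∑ d ∈ Finset.range M, b d := by
        rw [Finset.sum_image hinj]
        refine Finset.sum_congr rfl fun d _ => ?_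
        have h5 : (d : ℤ) + (m - 1) - (m - 1) = d := by ring
        rw [h5, if_pos (by positivity), Int.toNat_natCast]
      rw [← h4]
      by_cases hc' : (cc : ℤ) ∈ (Finset.range M).image (fun d : ℕ => (d : ℤ) + (m - 1))
      · rw [hT, Finset.insert_eq_of_mem hc']
      · rw [hT, Finset.sum_insert hc']
        have h6 : (if 0 ≤ (cc : ℤ) - ((m : ℤ) - 1) then b ((cc : ℤ) - (m - 1)).toNat else 0) = 0 := by
          split_ifs with h
          · refine hbig _ ?_
            by_contra hlt
            apply hc'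
            rw [Finset.mem_image]
            refine ⟨((cc : ℤ) - (m - 1)).toNat, Finset.mem_range.2 (by omega), ?_⟩
            rw [Int.toNat_of_nonneg h]; ring
          · rfl
        rw [h6, zero_add]
    rw [h2, h3, sub_self]
  have hac := eig E T a hae has cc (Finset.mem_insert_self _ _)
  simp only [ha, if_true] at hac
  have hcm1 : 0 ≤ (cc : ℤ) - (m - 1) := by
    by_contra h
    rw [if_neg h, zero_sub, neg_eq_zero] at hac
    exact hui hac
  rw [if_pos hcm1, sub_eq_zero] at hac
  set d0 : ℕ := ((cc : ℤ) - (m - 1)).toNat with hd0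
  have hd0' : (d0 : ℤ) = (c : ℤ) + 1 + dq - m := by
    rw [hd0, Int.toNat_of_nonneg hcm1, hcc]; push_cast; ring
  rw [← hR]
  refine ⟨fun l => aeval X (homogeneousComponent d0 (p l)), fun l => ⟨?_, ?_, ?_⟩, hac.symm⟩
  · change _ ∈ Algebra.adjoin k (Set.range X)
    rw [Algebra.adjoin_range_eq_range_aeval]
    exact ⟨_, rfl⟩
  · have hle : PA k X ≤ Bb k u := by
      refine Algebra.adjoin_le ?_
      rintro b ⟨s, rfl⟩
      exact hXi s
    refine hle ?_
    change _ ∈ Algebra.adjoin k (Set.range X)
    rw [Algebra.adjoin_range_eq_range_aeval]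
    exact ⟨_, rfl⟩
  · rw [← hd0']
    exact hpc l d0

end Pool.Agent.H19.S2
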