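import Pool.Agent.H3.SF.PIR
import Pool.Agent.H3.S2.TgQ

/-!
# MP_70ba79_ag, THEOREM S, part 2, row RDA: local reducedness at a smooth point
-/

set_option autoImplicit false

namespace Pool.Agent.H19.S2

open MvPolynomial SC Pool.Agent.H27.LV
open Pool.Agent.H84.SM (dp cr dt)
open Pool.Agent.H92.SF
open Pool.Agent.H3.SF
open Pool.Agent.H84.SF (Cor SYd Cone Tng Os Rep Frm FraD Pnt T_OSF T_TAY T_TAK T_HMF T_HIE)
open Pool.Agent.H92.OD (HS cf sg uu Lat geO cf_sg_mul hs_ext cf_zero)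
open Pool.Agent.H3.S2

section Loc

variable {k O : Type} [Field k] [CommRing O] [Algebra k O]

/-- elements which are not zero on the curve -/
lemma rda_dec (ε : O →ₐ[k] k) (x g : O) (dX dG : Derivation k O O) (hF : Frm ε x g dX dG)
    (c : O →ₐ[k] HS k) (hP : Pnt x g c) (hcg : c g = 0)
    (hc : ∀ h, Lat 1 (c h) ∧ cf (c h) 0 = ε h) :
    ∀ (n : ℕ) (z : O), cf (c z) (n : ℚ) ≠ 0 →
      ∃ (j : ℕ) (v w : O), z = x ^ j * v + g * w ∧ ε v ≠ 0 := by
  intro n
  induction n with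
  | zero =>
    intro z hz
    refine ⟨0, z, 0, by ring, ?_⟩
    rw [← (hc z).2]
    rw [Nat.cast_zero] at hz
    exact hz
  | succ n ih =>
    intro z hz
    by_cases h0 : ε z = 0
    · obtain ⟨a, b, hab⟩ := (hF.max z).1 h0
      have h1 : c z = sg 1 1 * c a := by
        rw [hab, map_add, map_mul, map_mul, hcg, hP.eqX, mul_zero, add_zero, mul_comm]
        rfl
      rw [h1, cf_sg_mul, one_mul] at hz
      have h2 : ((n + 1 : ℕ) : ℚ) - 1 = n := by push_cast; ring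
      rw [h2] at hz
      obtain ⟨j, v, w, h3, h4⟩ := ih a hz
      refine ⟨j + 1, v, w * x + b, ?_, h4⟩
      rw [hab, h3]
      ring
    · exact ⟨0, z, 0, by ring, h0⟩

lemma rda_dec0 (ε : O →ₐ[k] k) (x g : O) (dX dG : Derivation k O O) (hF : Frm ε x g dX dG)
    (c : O →ₐ[k] HS k) (hP : Pnt x g c) (hcg : c g = 0)
    (hc : ∀ h, Lat 1 (c h) ∧ cf (c h) 0 = ε h) (z : O) (hz : c z ≠ 0) :
    ∃ (j : ℕ) (v w : O), z = x ^ j * v + g * w ∧ ε v ≠ 0 := by
  have h1 : ∃ n : ℕ, cf (c z) (n : ℚ) ≠ 0 := by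
    by_contra hn
    push Not at hn
    apply hz
    refine hs_ext fun r => ?_
    rw [cf_zero]
    by_contra hr
    obtain ⟨m, hm⟩ := (hc z).1 r hr
    have h0 : 0 ≤ r := by
      by_contra h
      exact hr (hP.int z r (not_le.1 h))
    have h2 : r = m := by simpa using hm
    have h3 : 0 ≤ m := by
      rw [h2] at h0
      exact_mod_cast h0
    obtain ⟨n, rfl⟩ := Int.eq_ofNat_of_zero_le h3
    apply hr
    rw [h2]
    exact_mod_cast hn n
  obtain ⟨n, hn⟩ := h1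
  exact rda_dec ε x g dX dG hF c hP hcg hc n z hn

/-- `g` is a prime -/
lemma rda_prime (c : O →ₐ[k] HS k) (g : O) (hg0 : g ≠ 0) (hcg : c g = 0)
    (hk : ∀ h, c h = 0 → g ∣ h) : Prime g := by
  refine ⟨hg0, ?_, ?_⟩
  · intro hu
    have h1 := hu.map c
    rw [hcg] at h1
    exact not_isUnit_zero h1
  · intro a b ⟨e, hab⟩
    have h1 : c a * c b = 0 := by rw [← map_mul, hab, map_mul, hcg, zero_mul]
    rcases mul_eq_zero.1 h1 with h | h
    · exact Or.inl (hk a h)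
    · exact Or.inr (hk b h)

end Loc

section Val

variable {O : Type} [CommRing O] [IsDomain O] {g : O}

/-- exponents of a prime -/
lemma rda_exp (hg : Prime g) {p q : O} {a b : ℕ} (hp : ¬ g ∣ p) (hq : ¬ g ∣ q)
    (h : g ^ a * p = g ^ b * q) : a = b := by
  have key : ∀ (a b : ℕ) (p q : O), ¬ g ∣ q → g ^ a * p = g ^ b * q → a ≤ b := by
    intro a b p q hq h
    by_contra hab
    push Not at hab
    obtain ⟨e, rfl⟩ := Nat.exists_eq_add_of_lt hab
    have h1 : g ^ b * (g ^ (e + 1) * p) = g ^ b * q := by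
      rw [← h]
      ring
    have h2 := mul_left_cancel₀ (pow_ne_zero _ hg.ne_zero) h1
    apply hq
    rw [← h2]
    exact ⟨g ^ e * p, by ring⟩
  exact le_antisymm (key a b p q hq h) (key b a q p hp h.symm)

/-- integral elements -/
lemma rda_int (hg : Prime g) {p q : O} {a b N : ℕ} (hp : ¬ g ∣ p) (c : Fin N → O)
    (h : (g ^ a * p) ^ N + ∑ i : Fin N, c i * (g ^ b * q) ^ (N - (i : ℕ)) * (g ^ a * p) ^ (i : ℕ)
      = 0) : b ≤ a := by
  by_contra hab
  push Not at hab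
  obtain ⟨e, rfl⟩ := Nat.exists_eq_add_of_lt hab
  have h1 : ∀ i : Fin N, g ^ (a * N + 1) ∣
      c i * (g ^ (a + e + 1) * q) ^ (N - (i : ℕ)) * (g ^ a * p) ^ (i : ℕ) := by
    intro i
    obtain ⟨r, hr⟩ := Nat.exists_eq_add_of_lt i.2
    have h2 : N - (i : ℕ) = r + 1 := by omega
    rw [h2]
    refine ⟨c i * g ^ ((e + 1) * (r + 1) - 1) * q ^ (r + 1) * p ^ (i : ℕ), ?_⟩
    have h3 : (a + e + 1) * (r + 1) + a * (i : ℕ) = a * N + 1 + ((e + 1) * (r + 1) - 1) := by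
      have h4 : 1 ≤ (e + 1) * (r + 1) := Nat.one_le_iff_ne_zero.2 (by positivity)
      have hr' : (N : ℤ) = (i : ℕ) + r + 1 := by exact_mod_cast hr
      zify [h4]
      linear_combination (-(a : ℤ)) * hr'
    calc c i * (g ^ (a + e + 1) * q) ^ (r + 1) * (g ^ a * p) ^ (i : ℕ)
        = c i * (g ^ ((a + e + 1) * (r + 1) + a * (i : ℕ))) * q ^ (r + 1) * p ^ (i : ℕ) := by
          rw [mul_pow, mul_pow, pow_add, ← pow_mul, ← pow_mul]
          ring
      _ = _ := by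
          rw [h3, pow_add]
          ring
  have h2 : g ^ (a * N + 1) ∣ (g ^ a * p) ^ N := by
    have h3 : (g ^ a * p) ^ N = -∑ i : Fin N,
        c i * (g ^ (a + e + 1) * q) ^ (N - (i : ℕ)) * (g ^ a * p) ^ (i : ℕ) := by
      linear_combination h
    rw [h3]
    exact (Finset.dvd_sum fun i _ => h1 i).neg_right
  obtain ⟨r, hr⟩ := h2
  have h4 : g ^ (a * N) * p ^ N = g ^ (a * N) * (g * r) := by
    rw [mul_pow, ← pow_mul] at hr
    rw [hr]
    ring
  have h5 := mul_left_cancel₀ (pow_ne_zero _ hg.ne_zero) h4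
  exact hp (hg.dvd_of_dvd_pow ⟨r, h5⟩)

end Val

section Main

variable {k F σ : Type} [Field k] [Field F] [Algebra k F] {X : σ → F} {u : Fin 3 → F}

/-- the ideal of a curve through `s` which is not a line through the vertex -/
lemma rda_claim (s : σ → k) (G L0 L1 : MvPolynomial σ k) (m : ℕ)
    (ε : Os X s →ₐ[k] k) (X1 Gs : Os X s) (dX dG : Derivation k (Os X s) (Os X s))
    (hL0 : L0.IsHomogeneous 1) (hv0 : eval s L0 ≠ 0)
    (hε : ∀ (h : Os X s) (d : ℕ) (a b : MvPolynomial σ k), Rep X (h : F) d a b →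
      ε h * eval s b = eval s a)
    (hX1 : (X1 : F) * aeval X L0 = aeval X L1) (hGs1 : (Gs : F) * aeval X L0 ^ m = aeval X G)
    (hFrm : Frm ε X1 Gs dX dG) (c : Os X s →ₐ[k] HS k) (hPnt : Pnt X1 Gs c) (hcG : c Gs = 0)
    (hcL : ∀ h, Lat 1 (c h) ∧ cf (c h) 0 = ε h)
    (P : Ideal (MvPolynomial σ k)) (hP : P.IsPrime) (hPX : ∀ f, aeval X f = 0 → f ∈ P)
    (hGP : G ∈ P) (hPs : ∀ f ∈ P, eval s f = 0)
    (l : MvPolynomial σ k) (hl1 : l.IsHomogeneous 1) (hls : eval s l = 0) (hlP : l ∉ P)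
    (z : Os X s) (d : ℕ) (a b : MvPolynomial σ k) (hz : Rep X (z : F) d a b) (hb : eval s b ≠ 0)
    (haP : a ∈ P) : c z = 0 := by
  have hker : ∀ f g : MvPolynomial σ k, aeval X f = aeval X g → g ∈ P → f ∈ P := by
    intro f g h hg
    have h1 : f - g ∈ P := hPX _ (by rw [map_sub, h, sub_self])
    have h2 := P.add_mem h1 hg
    rwa [sub_add_cancel] at h2
  have hsb : ∀ b : MvPolynomial σ k, eval s b ≠ 0 → b ∉ P := fun b hb h => hb (hPs b h)
  have hl0 : aeval X L0 ≠ 0 := fun h => hsb L0 hv0 (hPX L0 h)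
  by_contra hcz
  obtain ⟨j, v, w, hzv, hεv⟩ := rda_dec0 ε X1 Gs dX dG hFrm c hPnt hcG hcL z hcz
  obtain ⟨e1, v1, v2, hv, hv2⟩ := v.2
  obtain ⟨e2, w1, w2, hw, hw2⟩ := w.2
  have hv1 : eval s v1 ≠ 0 := by
    rw [← hε v e1 v1 v2 hv]
    exact mul_ne_zero hεv hv2
  -- `L1` is in `P`
  have hL1P : L1 ∈ P := by
    have h1 : L1 ^ j * L0 ^ m * v1 * w2 * b ∈ P := by
      refine hker _ (a * (L0 ^ (j + m) * v2 * w2) - G * (L0 ^ j * w1 * v2 * b)) ?_
        (P.sub_mem (P.mul_mem_right _ haP) (P.mul_mem_right _ hGP))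
      have h2 : (z : F) = (X1 : F) ^ j * (v : F) + (Gs : F) * (w : F) := by
        rw [hzv]
        rfl
      have h3 := hz.2.2
      have h4 := hv.2.2
      have h5 := hw.2.2
      simp only [map_sub, map_mul, map_pow]
      rw [← h3, ← h4, ← h5, ← hX1, ← hGs1, h2]
      ring
    have h2 := hP.mem_or_mem h1
    rcases h2 with h2 | h2
    · rcases hP.mem_or_mem h2 with h2 | h2
      · rcases hP.mem_or_mem h2 with h2 | h2
        · rcases hP.mem_or_mem h2 with h2 | h2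
          · exact hP.mem_of_pow_mem _ h2
          · exact absurd (hP.mem_of_pow_mem _ h2) (hsb L0 hv0)
        · exact absurd h2 (hsb v1 hv1)
      · exact absurd h2 (hsb w2 hw2)
    · exact absurd h2 (hsb b hb)
  -- all linear forms which are zero at `s` are in `P`
  apply hlP
  have hlo : aeval X l / aeval X L0 ∈ Os X s := by
    refine ⟨1, l, L0, ⟨hl1, hL0, ?_⟩, hv0⟩
    exact div_mul_cancel₀ _ hl0
  have h0 : ε ⟨_, hlo⟩ = 0 := by
    have h1 := hε ⟨_, hlo⟩ 1 l L0 ⟨hl1, hL0, div_mul_cancel₀ _ hl0⟩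
    rw [hls] at h1
    exact (mul_eq_zero.1 h1).resolve_right hv0
  obtain ⟨p, q, hpq⟩ := (hFrm.max _).1 h0
  obtain ⟨e3, p1, p2, hp, hp2⟩ := p.2
  obtain ⟨e4, q1, q2, hq, hq2⟩ := q.2
  have h1 : l * p2 * q2 * L0 ^ m ∈ P := by
    refine hker _ (L1 * (p1 * q2 * L0 ^ m) + G * (q1 * p2 * L0)) ?_
      (P.add_mem (P.mul_mem_right _ hL1P) (P.mul_mem_right _ hGP))
    have h2 : aeval X l / aeval X L0 = (p : F) * (X1 : F) + (q : F) * (Gs : F) :=
      congrArg (fun z : Os X s => (z : F)) hpq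
    have h3 : aeval X l = ((p : F) * (X1 : F) + (q : F) * (Gs : F)) * aeval X L0 := by
      rw [← h2, div_mul_cancel₀ _ hl0]
    have h4 := hp.2.2
    have h5 := hq.2.2
    simp only [map_add, map_mul, map_pow]
    rw [h3, ← h4, ← h5, ← hX1, ← hGs1]
    ring
  rcases hP.mem_or_mem h1 with h2 | h2
  · rcases hP.mem_or_mem h2 with h2 | h2
    · rcases hP.mem_or_mem h2 with h2 | h2
      · exact h2
      · exact absurd h2 (hsb p2 hp2)
    · exact absurd h2 (hsb q2 hq2)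
  · exact absurd (hP.mem_of_pow_mem _ h2) (hsb L0 hv0)

end Main

theorem pf_RDA (hOSF : T_OSF) (hTAY : T_TAY) (hTAK : T_TAK) (hHMF : T_HMF) (hHIE : T_HIE) :
    T_RDA := by
  intro k F σ _ _ _ _ _ _ _ X u dd δ j0 c0 J hS hX m G hm hG hG0 s hs hC hGs hT P hP hPX hGP hPs
    hl a t ha hat hag
  obtain ⟨l, hl1, hls, hlP⟩ := hl
  by_cases ha0 : a = 0
  · refine ⟨1, fun h => hP.ne_top ((Ideal.eq_top_iff_one _).2 h), ?_⟩
    rw [ha0, zero_div, mul_zero]
    exact (Bb k u).zero_mem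
  have hsyd := pir_syd hS hX
  have hlin := pir_lin hS hX
  obtain ⟨hN, L0, L1, cX, cG, ε, X1, Gs, dX, dG, hL0, hL1, hv0, hv1, hFr, hε, hX1, hGs1, hFrm,
    -, -⟩ := hOSF k F σ X s dd G m hC hs hlin hm hG hGs hT
  obtain ⟨c, hPnt, hcG, hcL⟩ := hTAY k (Os X s) ε X1 Gs dX dG hFrm
  have hl0 : aeval X L0 ≠ 0 := fun h => hv0 (hC.pt L0 h)
  have hsb : ∀ b : MvPolynomial σ k, eval s b ≠ 0 → b ∉ P := fun b hb h => hb (hPs b h)
  have hGs0 : Gs ≠ 0 := by
    intro h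
    apply hG0
    rw [← hGs1, h]
    exact zero_mul _
  have hprm : Prime Gs := rda_prime c Gs hGs0 hcG
    (fun h hh => hTAK k (Os X s) ε X1 Gs dX dG hFrm c hPnt hcG h hh)
  have hclaim : ∀ (z : Os X s) (d : ℕ) (a b : MvPolynomial σ k), Rep X (z : F) d a b →
      eval s b ≠ 0 → a ∈ P → Gs ∣ z := fun z d a b hz hb haP =>
    hTAK k (Os X s) ε X1 Gs dX dG hFrm c hPnt hcG z (rda_claim s G L0 L1 m ε X1 Gs dX dG hL0 hv0
      hε hX1 hGs1 hFrm c hPnt hcG hcL P hP hPX hGP hPs l hl1 hls hlP z d a b hz hb haP)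
  have hL0p : ∀ e : ℕ, (L0 ^ e).IsHomogeneous e := fun e => by
    have h1 := hL0.pow e
    rwa [one_mul] at h1
  have hq : ∀ (g : MvPolynomial σ k) (e : ℕ), g.IsHomogeneous e →
      aeval X g / aeval X L0 ^ e ∈ Os X s := by
    intro g e hg
    refine ⟨e, g, L0 ^ e, ⟨hg, hL0p e, ?_⟩, ?_⟩
    · rw [map_pow]
      exact div_mul_cancel₀ _ (pow_ne_zero _ hl0)
    · rw [map_pow]
      exact pow_ne_zero _ hv0
  choose U hU1 hU using hX.ulin
  have hau : ∀ q : MvPolynomial (Fin 3) k, aeval X (aeval U q) = aeval u q := by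
    intro q
    rw [← AlgHom.comp_apply]
    congr 1
    refine MvPolynomial.algHom_ext fun l => ?_
    rw [AlgHom.comp_apply, aeval_X, aeval_X, hU]
  have hUh : ∀ (q : MvPolynomial (Fin 3) k) (e : ℕ), q.IsHomogeneous e →
      (aeval U q).IsHomogeneous e := by
    intro q e hq
    have h1 := hq.aeval U hU1
    rwa [one_mul] at h1
  have hui : ∀ i, Hm k (eu u dd) 1 (u i) := by
    intro i
    have h1 := Pool.Agent.H62.HIL.hm_aeval (pir_hX hX) (hU1 i)
    rw [hU] at h1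
    exact h1
  have hJH : Hm k (eu u dd) j0 (aeval u J) := Pool.Agent.H62.HIL.hm_aeval hui hS.Jh
  have hJ0 : aeval u J ≠ 0 := by
    intro h
    exact hS.J0 ((injective_iff_map_eq_zero _).1 hS.ind J h)
  have hGH : Hm k (eu u dd) m (aeval X G) := Pool.Agent.H62.HIL.hm_aeval (pir_hX hX) hG
  -- the degree of `a ^ 2 / G`
  set b : F := a * a / aeval X G with hb
  have hb0 : b ≠ 0 := div_ne_zero (mul_ne_zero ha0 ha0) hG0
  have hbH : Hm k (eu u dd) ((t : ℤ) + t - m) b :=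
    Pool.Agent.H62.HIL.hm_div (Pool.Agent.H62.HIL.hm_mul hat hat) hGH hG0
  obtain ⟨e, he⟩ : ∃ e : ℕ, t + t = e + m := by
    by_contra hne
    have h1 : ((t : ℤ) + t - m) < 0 := by
      by_contra h
      apply hne
      refine ⟨t + t - m, ?_⟩
      omega
    have h2 := hS.neg _ h1
    have h3 : b ∈ BB k u (eu u dd) ((t : ℤ) + t - m) := ⟨hag, hbH⟩
    rw [h2] at h3
    exact hb0 ((Submodule.mem_bot k).1 h3)
  have hbe : Hm k (eu u dd) (e : ℤ) b := by
    have h1 : ((t : ℤ) + t - m) = e := by omega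
    rw [← h1]
    exact hbH
  -- forms
  obtain ⟨fa, hfa1, hfa⟩ := hHMF k F σ X u dd J j0 hsyd (aeval u J * a) (j0 + t)
    (hX.JI a ha) (by
      have h1 := Pool.Agent.H62.HIL.hm_mul hJH hat
      push_cast
      exact h1)
  obtain ⟨fb, hfb1, hfb⟩ := hHMF k F σ X u dd J j0 hsyd (aeval u J * b) (j0 + e)
    (hX.JI b hag) (by
      have h1 := Pool.Agent.H62.HIL.hm_mul hJH hbe
      push_cast
      exact h1)
  obtain ⟨p, hp⟩ : ∃ p : Os X s, (p : F) = aeval u J * a / aeval X L0 ^ (j0 + t) :=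
    ⟨⟨_, hfa ▸ hq fa _ hfa1⟩, rfl⟩
  obtain ⟨p', hp'⟩ : ∃ p : Os X s, (p : F) = aeval u J * b / aeval X L0 ^ (j0 + e) :=
    ⟨⟨_, hfb ▸ hq fb _ hfb1⟩, rfl⟩
  obtain ⟨J1, hJ1⟩ : ∃ p : Os X s, (p : F) = aeval u J / aeval X L0 ^ j0 :=
    ⟨⟨_, hau J ▸ hq _ _ (hUh J j0 hS.Jh)⟩, rfl⟩
  have hne : ∀ (z : Os X s), (z : F) ≠ 0 → z ≠ 0 := by
    rintro z hz rfl
    exact hz rfl
  have hp0 : p ≠ 0 := hne p (by
    rw [hp]
    exact div_ne_zero (mul_ne_zero hJ0 ha0) (pow_ne_zero _ hl0))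
  have hp'0 : p' ≠ 0 := hne p' (by
    rw [hp']
    exact div_ne_zero (mul_ne_zero hJ0 hb0) (pow_ne_zero _ hl0))
  have hJ10 : J1 ≠ 0 := hne J1 (by
    rw [hJ1]
    exact div_ne_zero hJ0 (pow_ne_zero _ hl0))
  obtain ⟨al, p1, hp1, hpe⟩ := WfDvdMonoid.max_power_factor' hp0 hprm.not_isUnit
  obtain ⟨be, q1, hq1, hJe⟩ := WfDvdMonoid.max_power_factor' hJ10 hprm.not_isUnit
  obtain ⟨ga, p1', hp1', hpe'⟩ := WfDvdMonoid.max_power_factor' hp'0 hprm.not_isUnit
  -- the relation between the exponents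
  have hGsF : (Gs : F) = aeval X G / aeval X L0 ^ m := by
    rw [eq_div_iff (pow_ne_zero _ hl0)]
    exact hGs1
  have hrel : p' * J1 * Gs = p ^ 2 := by
    apply Subtype.ext
    change (p' : F) * (J1 : F) * (Gs : F) = (p : F) ^ 2
    rw [hp, hp', hJ1, hGsF, hb]
    have h1 : aeval X L0 ^ (j0 + e) * aeval X L0 ^ j0 * aeval X L0 ^ m =
        (aeval X L0 ^ (j0 + t)) ^ 2 := by
      rw [← pow_add, ← pow_add, ← pow_mul]
      congr 1
      omega
    rw [div_pow, ← h1]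
    field_simp
  have hexp : ga + be + 1 = 2 * al := by
    refine rda_exp hprm (p := p1' * q1) (q := p1 ^ 2) ?_ ?_ ?_
    · intro h
      rcases hprm.dvd_or_dvd h with h | h
      · exact hp1' h
      · exact hq1 h
    · intro h
      exact hp1 (hprm.dvd_of_dvd_pow h)
    · rw [hpe, hpe', hJe] at hrel
      calc Gs ^ (ga + be + 1) * (p1' * q1) = Gs ^ ga * p1' * (Gs ^ be * q1) * Gs := by ring
        _ = (Gs ^ al * p1) ^ 2 := hrel
        _ = _ := by ring
  -- integrality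
  have hint : be ≤ ga := by
    obtain ⟨N, cc, hcc, hcb⟩ := hHIE k F u dd hS.du b e hag hbe
    have hc' : ∀ i : Fin N, ∃ y : Os X s,
        (y : F) = aeval u (cc i) / aeval X L0 ^ ((N - (i : ℕ)) * e) := fun i =>
      ⟨⟨_, hau (cc i) ▸ hq _ _ (hUh _ _ (hcc i))⟩, rfl⟩
    choose c' hc' using hc'
    refine rda_int hprm (q := q1) (N := N) hp1' c' ?_
    rw [← hpe', ← hJe]
    apply Subtype.ext
    have h0 : ((p' ^ N + ∑ i : Fin N, c' i * J1 ^ (N - (i : ℕ)) * p' ^ (i : ℕ) : Os X s) : F) =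
        (p' : F) ^ N + ∑ i : Fin N, (c' i : F) * (J1 : F) ^ (N - (i : ℕ)) * (p' : F) ^ (i : ℕ) := by
      push_cast
      rfl
    rw [h0]
    have h1 : ∀ i : Fin N, (c' i : F) * (J1 : F) ^ (N - (i : ℕ)) * (p' : F) ^ (i : ℕ) =
        (aeval u J ^ N / (aeval X L0 ^ (j0 + e)) ^ N) * (aeval u (cc i) * b ^ (i : ℕ)) := by
      intro i
      obtain ⟨r, hr⟩ := Nat.exists_eq_add_of_lt i.2
      have h2 : N - (i : ℕ) = r + 1 := by omega
      rw [hc', hJ1, hp', h2]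
      have h3 : aeval X L0 ^ ((r + 1) * e) * (aeval X L0 ^ j0) ^ (r + 1) *
          (aeval X L0 ^ (j0 + e)) ^ (i : ℕ) = (aeval X L0 ^ (j0 + e)) ^ N := by
        have h4 : (aeval X L0 ^ (j0 + e)) ^ N = (aeval X L0 ^ (j0 + e)) ^ ((i : ℕ) + r + 1) :=
          congrArg (fun n => (aeval X L0 ^ (j0 + e)) ^ n) hr
        rw [h4]
        ring
      have h5 : aeval u J ^ N = aeval u J ^ (r + 1) * aeval u J ^ (i : ℕ) := by
        rw [← pow_add]
        exact congrArg (fun n => aeval u J ^ n) (by omega)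
      rw [← h3, h5, div_pow, div_pow, mul_pow]
      field_simp
    rw [Finset.sum_congr rfl fun i _ => h1 i, ← Finset.mul_sum]
    have h2 : (p' : F) ^ N = (aeval u J ^ N / (aeval X L0 ^ (j0 + e)) ^ N) * b ^ N := by
      rw [hp', div_pow, mul_pow]
      ring
    rw [h2, ← mul_add, hcb, mul_zero]
    rfl
  obtain ⟨r, hr⟩ : ∃ r, al = be + (r + 1) := ⟨al - be - 1, by omega⟩
  -- `q1 a / (L0 ^ t Gs)` is in the local ring
  obtain ⟨y, hy⟩ : ∃ y : Os X s, y = Gs ^ r * p1 := ⟨_, rfl⟩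
  have hy1 : (q1 : F) * (a / aeval X L0 ^ t) = (Gs : F) * (y : F) := by
    have hpF : (p : F) = (Gs : F) ^ al * (p1 : F) := by
      rw [hpe]
      rfl
    have hJF : (J1 : F) = (Gs : F) ^ be * (q1 : F) := by
      rw [hJe]
      rfl
    have hyF : (y : F) = (Gs : F) ^ r * (p1 : F) := by
      rw [hy]
      rfl
    have hG1 : (Gs : F) ≠ 0 := by
      rw [hGsF]
      exact div_ne_zero hG0 (pow_ne_zero _ hl0)
    have h1 : (p : F) = (J1 : F) * (a / aeval X L0 ^ t) := by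
      rw [hp, hJ1, pow_add]
      field_simp
    rw [hpF, hJF, hr, pow_add] at h1
    have h2 : (Gs : F) ^ be * ((Gs : F) ^ (r + 1) * (p1 : F)) =
        (Gs : F) ^ be * ((q1 : F) * (a / aeval X L0 ^ t)) := by
      rw [← mul_assoc, h1, mul_assoc]
    have h3 := mul_left_cancel₀ (pow_ne_zero _ hG1) h2
    rw [← h3, hyF]
    ring
  obtain ⟨d1, f, h, hfh, hhs⟩ := q1.2
  obtain ⟨d2, f', h', hfh', hhs'⟩ := y.2
  refine ⟨f * h' * L0 ^ m, ?_, ?_⟩
  · intro hmem
    rcases hP.mem_or_mem hmem with h2 | h2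
    · rcases hP.mem_or_mem h2 with h2 | h2
      · exact hq1 (hclaim q1 d1 f h hfh hhs h2)
      · exact hsb h' hhs' h2
    · exact hsb L0 hv0 (hP.mem_of_pow_mem _ h2)
  · have h1 : aeval X (f * h' * L0 ^ m) * (a / aeval X G) = aeval X (f' * h * L0 ^ t) := by
      have h2 := hfh.2.2
      have h3 := hfh'.2.2
      simp only [map_mul, map_pow]
      rw [← h2, ← h3, mul_div_assoc', div_eq_iff hG0]
      have h4 : (q1 : F) * a = (Gs : F) * (y : F) * aeval X L0 ^ t := by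
        rw [← hy1]
        field_simp
      rw [← hGs1]
      linear_combination (aeval X h * aeval X h' * aeval X L0 ^ m) * h4
    rw [h1]
    have h4 : ∀ q : MvPolynomial σ k, aeval X q ∈ Bb k u := by
      intro q
      induction q using MvPolynomial.induction_on with
      | C a =>
        rw [algHom_C]
        exact (Bb k u).algebraMap_mem a
      | add p q hp hq =>
        rw [map_add]
        exact (Bb k u).add_mem hp hq
      | mul_X p i hp =>
        rw [map_mul, aeval_X]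
        exact (Bb k u).mul_mem hp (hX.Xint i)
    exact h4 _

end Pool.Agent.H19.S2
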